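import Pool.Agent.R781.WR.Forms

set_option autoImplicit false

/-!
# The analogue of `G(k)` with two summands from arbitrary dense sets

`Suff k t` says that every large integer is `a + b + x_1 ^ k + ... + x_t ^ k` with positive
integers `x_i`, whatever the sets of positive lower density are from which `a` and `b` are taken.
It holds if and only if every residue class is a sum of `t` powers. So the least such `t` is a
local number; it is at most `4 k`, with equality for `k = 2 ^ m`, `m ≥ 3`. Moreover all the `x_i`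
but one can be taken bounded.
-/

namespace Pool.Agent.Results.MP_45c923_nt.DenseSummands

open Filter

/-- `A` has positive lower density. -/
def PosDens (A : Set ℕ) : Prop :=
  ∃ δ : ℝ, 0 < δ ∧ ∀ᶠ N : ℕ in atTop, δ * N ≤ ((A ∩ Set.Iio N).ncard : ℝ)

/-- For all sets `A`, `B` of positive lower density every large `n` is
`a + b + x_1 ^ k + ... + x_t ^ k` with `a ∈ A`, `b ∈ B` and positive integers `x_i`. -/
def Suff (k t : ℕ) : Prop :=
  ∀ A B : Set ℕ, PosDens A → PosDens B → ∀ᶠ n : ℕ in atTop,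
    ∃ a ∈ A, ∃ b ∈ B, ∃ x : Fin t → ℕ, (∀ i, 0 < x i) ∧ a + b + ∑ i, x i ^ k = n

/-- For all sets `A`, `B` of positive lower density there is a `C` such that every large `n` is
`a + b + x_1 ^ k + ... + x_t ^ k` with `a ∈ A`, `b ∈ B` and positive integers `x_i`, where
`x_i ≤ C` for `i ≥ 2`. -/
def StrongSuff (k t : ℕ) : Prop :=
  ∀ A B : Set ℕ, PosDens A → PosDens B → ∃ C : ℕ, ∀ᶠ n : ℕ in atTop,
    ∃ a ∈ A, ∃ b ∈ B, ∃ x : Fin t → ℕ, (∀ i, 0 < x i) ∧ (∀ i, i.val ≠ 0 → x i ≤ C) ∧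
      a + b + ∑ i, x i ^ k = n

/-- Every residue class modulo every `q` is a sum of `t` terms `x ^ k`. -/
def Local (k t : ℕ) : Prop :=
  ∀ q : ℕ, 1 ≤ q → ∀ r : ℕ, ∃ x : Fin t → ℕ, ∑ i, x i ^ k ≡ r [MOD q]

lemma local_of_suff {k t : ℕ} (h : Suff k t) : Local k t := by
  intro q hq
  refine R781.WR.local_of (fun A hA => ?_) hq
  filter_upwards [h A A hA hA] with n hn
  obtain ⟨a, ha, b, hb, x, -, h⟩ := hn
  exact ⟨a, ha, b, hb, x, h⟩

lemma suff_of_strong {k t : ℕ} (h : StrongSuff k t) : Suff k t := by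
  intro A B hA hB
  obtain ⟨C, hC⟩ := h A B hA hB
  filter_upwards [hC] with n hn
  obtain ⟨a, ha, b, hb, x, hx1, -, h⟩ := hn
  exact ⟨a, ha, b, hb, x, hx1, h⟩

lemma strong_of_local {k t : ℕ} (hk : 1 ≤ k) (h : Local k t) : StrongSuff k t := by
  have ht : 1 ≤ t := by
    rcases Nat.eq_zero_or_pos t with rfl | ht
    · obtain ⟨x, hx⟩ := h 2 (by norm_num) 1
      simp [Nat.ModEq] at hx
    · exact ht
  intro A B hA hB
  obtain ⟨C, hC⟩ := R781.WR.form_two hk ht (fun q hq r => h q hq r) hA hB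
  refine ⟨C, ?_⟩
  filter_upwards [hC] with n hn
  obtain ⟨a, ha, b, hb, m, ⟨x, hx1, hx2, hx3⟩, h⟩ := hn
  exact ⟨a, ha, b, hb, x, hx1, hx2, by rw [hx3]; exact h⟩

/-- **The exact value of the analogue of `G(k)` with two dense summands.** -/
theorem result :
    ∃ D : ℕ → ℕ,
      -- `D k` is the least number of powers which suffices with two dense summands
      (∀ k : ℕ, 1 ≤ k → IsLeast {t | Suff k t} (D k)) ∧
      -- it equals the local number, and then all powers but one can be taken bounded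
      (∀ k : ℕ, 1 ≤ k → IsLeast {t | Local k t} (D k) ∧ StrongSuff k (D k)) ∧
      (∀ k t : ℕ, 1 ≤ k → (Suff k t ↔ Local k t)) ∧
      -- its order of magnitude
      (∀ k : ℕ, 1 ≤ k → D k ≤ 4 * k) ∧
      (∀ k : ℕ, 1 ≤ k → (¬ ∃ m : ℕ, 2 ≤ m ∧ k = 2 ^ m) → D k ≤ 2 * k + 1) ∧
      (∀ m : ℕ, 3 ≤ m → D (2 ^ m) = 4 * 2 ^ m) := by
  have hiff : ∀ k t : ℕ, 1 ≤ k → (Suff k t ↔ Local k t) := fun k t hk =>
    ⟨local_of_suff, fun h => suff_of_strong (strong_of_local hk h)⟩
  have h4 : ∀ k : ℕ, 1 ≤ k → Local k (4 * k) := fun k hk q hq r => R500.WB.Loc.four hk hq r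
  have hD : ∀ k : ℕ, ∃ d, 1 ≤ k → IsLeast {t | Local k t} d := by
    intro k
    by_cases hk : 1 ≤ k
    · obtain ⟨d, hd⟩ : ∃ d, IsLeast {t | Local k t} d := by
        classical
        have hex : ∃ t, Local k t := ⟨4 * k, h4 k hk⟩
        exact ⟨Nat.find hex, Nat.find_spec hex, fun t ht => Nat.find_min' hex ht⟩
      exact ⟨d, fun _ => hd⟩
    · exact ⟨0, fun h => absurd h hk⟩
  choose D hD using hD
  refine ⟨D, fun k hk => ?_, fun k hk => ⟨hD k hk, strong_of_local hk (hD k hk).1⟩, hiff,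
    fun k hk => (hD k hk).2 (h4 k hk), fun k hk hk2 => (hD k hk).2 fun q hq r =>
      R500.WB.Loc.two hk (fun a ha h => hk2 ⟨a, ha, h⟩) hq r, fun m hm => ?_⟩
  · have h1 := hD k hk
    exact ⟨(hiff k (D k) hk).2 h1.1, fun t ht => h1.2 ((hiff k t hk).1 ht)⟩
  · have hk : 1 ≤ 2 ^ m := Nat.one_le_two_pow
    refine le_antisymm ((hD _ hk).2 (h4 _ hk)) ?_
    by_contra hcon
    push Not at hcon
    refine R781.WR.not_suff hm rfl hcon fun A hA => ?_
    filter_upwards [(hiff (2 ^ m) (D (2 ^ m)) hk).2 (hD _ hk).1 A A hA hA] with n hn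
    obtain ⟨a, ha, b, hb, x, -, h⟩ := hn
    exact ⟨a, ha, b, hb, x, h⟩

end Pool.Agent.Results.MP_45c923_nt.DenseSummands
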