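import Mathlib
import Pool.Agent.R500.WB.Exact
import Pool.Agent.R500.WA.Lower

set_option autoImplicit false

/-!
# The exact analogue of `G(k)` for powers moved by less than the gaps

Let `(1 - 1 / k) ^ (k + 1 - F) < η < F / k` for an integer `F ≤ k`, for example
`(1 - 1 / k) ^ 2 < η < 1 - 1 / k` (`F = k - 1`) or, for cubes, `8 / 27 < η < 1 / 3` (`F = 1`). For
`k`-th powers moved at random by multiples of `q`, the multipliers being at most the `η`-th power of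
their size, the analogue of `G(k)` is almost surely the maximum of `k + 1` and the number of terms
which the conditions modulo `q` require.
-/

namespace Pool.Agent.Results.MP_45c923_nt.ExactValue

open Finset MeasureTheory ProbabilityTheory Filter

/-- `a` is a sequence of `k`-th powers moved at random by multiples of `q`: the `a x` are
independent random natural numbers, `a x = x ^ k + q j` with an integer `0 ≤ j ≤ (x ^ k) ^ η`, and
each such `j` is taken with at least the probability `δ / ((x ^ k) ^ η + 1)`. With the remaining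
probability (up to `1 - δ`) the power need not be moved at all. -/
structure Moved (k q : ℕ) (η δ : ℝ) {Ω : Type} [MeasurableSpace Ω] (μ : Measure Ω)
    (a : ℕ → Ω → ℕ) : Prop where
  measurable : ∀ x, Measurable (a x)
  indep : iIndepFun a μ
  range : ∀ (x : ℕ) (ω : Ω), ∃ j : ℕ, (j : ℝ) ≤ ((x : ℝ) ^ k) ^ η ∧ a x ω = x ^ k + q * j
  spread : ∀ x j : ℕ, (j : ℝ) ≤ ((x : ℝ) ^ k) ^ η →
    δ / (((x : ℝ) ^ k) ^ η + 1) ≤ μ.real {ω | a x ω = x ^ k + q * j}

/-- `m` is the least number of terms which suffices for all large integers: the analogue of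
`G(k)` with `b x` in place of `x ^ k`. -/
def IsG (b : ℕ → ℕ) (m : ℕ) : Prop :=
  IsLeast {m : ℕ | ∀ᶠ n : ℕ in atTop, ∃ x : Fin m → ℕ, ∑ i, b (x i) = n} m

/-- The least number `t` of terms such that every residue class modulo `q` contains a sum of `t`
terms `k`-th powers. -/
noncomputable def Γ (k q : ℕ) : ℕ :=
  sInf {t : ℕ | ∀ n : ℕ, ∃ ρ : Fin t → ℕ, ∑ i, ρ i ^ k ≡ n [MOD q]}

/-- From `k + 1` terms on the conditions modulo `q` are the only obstructions, and the analogue of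
`G(k)` is the maximum of `k + 1` and `Γ k q`. -/
def Exact (k q : ℕ) (b : ℕ → ℕ) : Prop :=
  (∀ t : ℕ, k + 1 ≤ t → ∀ᶠ n : ℕ in atTop, (∃ ρ : Fin t → ℕ, ∑ i, ρ i ^ k ≡ n [MOD q]) →
    ∃ x : Fin t → ℕ, (∀ i, 0 < x i) ∧ ∑ i, b (x i) = n) ∧
  IsG b (max (k + 1) (Γ k q))

/-- The deterministic lower bound. -/
lemma le_of_mem {k : ℕ} (hk : 2 ≤ k) {b : ℕ → ℕ} (hb : ∀ x, x ^ k ≤ b x) (hb0 : b 0 = 0) {m : ℕ}
    (hm : ∀ᶠ n : ℕ in atTop, ∃ x : Fin m → ℕ, ∑ i, b (x i) = n) : k + 1 ≤ m := by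
  by_contra hcon
  obtain ⟨N₀, hN₀⟩ := eventually_atTop.1 hm
  obtain ⟨n, hn, hn'⟩ := R500.WA.lower hk b hb N₀
  apply hn'
  obtain ⟨x, hx⟩ := hN₀ n hn
  -- keep the positive terms
  refine ⟨((univ : Finset (Fin m)).filter fun i => 0 < x i).card, ?_,
    fun i => x (((univ : Finset (Fin m)).filter fun i => 0 < x i).orderEmbOfFin rfl i), ?_, ?_⟩
  · have h1 := Finset.card_filter_le (univ : Finset (Fin m)) (fun i => 0 < x i)
    rw [Finset.card_univ, Fintype.card_fin] at h1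
    omega
  · intro i
    exact (Finset.mem_filter.1 (Finset.orderEmbOfFin_mem _ rfl i)).2
  · rw [← hx]
    have h1 : ∑ i, b (x i) = ∑ i ∈ (univ : Finset (Fin m)).filter (fun i => 0 < x i), b (x i) := by
      rw [Finset.sum_filter]
      refine Finset.sum_congr rfl fun i _ => ?_
      split_ifs with h
      · rfl
      · have : x i = 0 := by omega
        rw [this, hb0]
    rw [h1]
    have h2 := Finset.map_orderEmbOfFin_univ
      ((univ : Finset (Fin m)).filter fun i => 0 < x i) rfl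
    conv_rhs => rw [← h2]
    rw [Finset.sum_map]
    rfl

lemma exact_of {k q : ℕ} {η : ℝ} (hk : 2 ≤ k) (hq : 1 ≤ q) (hη0 : 0 < η)
    {b : ℕ → ℕ}
    (hb : ∀ x : ℕ, ∃ j : ℕ, (j : ℝ) ≤ ((x : ℝ) ^ k) ^ η ∧ b x = x ^ k + q * j)
    (h : ∀ t : ℕ, k + 1 ≤ t → ∀ᶠ n : ℕ in atTop,
      (∃ ρ : Fin t → ℕ, ∑ i, ρ i ^ k ≡ n [MOD q]) →
        ∃ x : Fin t → ℕ, (∀ i, 0 < x i) ∧ ∑ i, b (x i) = n) : Exact k q b := by
  have hk1 : 1 ≤ k := by omega
  have hb0 : b 0 = 0 := by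
    obtain ⟨j, h1, h2⟩ := hb 0
    have h3 : ((0 : ℕ) : ℝ) ^ k = 0 := by
      rw [Nat.cast_zero, zero_pow (by omega)]
    rw [h3, Real.zero_rpow hη0.ne'] at h1
    have h4 : j = 0 := by exact_mod_cast le_antisymm h1 (Nat.cast_nonneg _)
    rw [h2, h4, zero_pow (by omega), mul_zero, add_zero]
  have hbk : ∀ x, x ^ k ≤ b x := by
    intro x
    obtain ⟨j, -, h2⟩ := hb x
    rw [h2]
    exact Nat.le_add_right _ _
  have hΓ : R500.WB.Loc k (Γ k q) q :=
    Nat.sInf_mem (s := {t : ℕ | ∀ n : ℕ, ∃ ρ : Fin t → ℕ, ∑ i, ρ i ^ k ≡ n [MOD q]})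
      ⟨4 * k, R500.WB.Loc.four hk1 hq⟩
  have hloc : R500.WB.Loc k (max (k + 1) (Γ k q)) q := hΓ.mono hk1 (le_max_right _ _)
  refine ⟨h, ?_, ?_⟩
  · rw [Set.mem_ofPred_eq]
    filter_upwards [h _ (le_max_left _ _)] with n hn
    obtain ⟨x, -, hx⟩ := hn (hloc n)
    exact ⟨x, hx⟩
  · intro m hm
    rw [Set.mem_ofPred_eq] at hm
    refine max_le (le_of_mem hk hbk hb0 hm) ?_
    refine Nat.sInf_le ?_
    intro n
    obtain ⟨N, hN⟩ := eventually_atTop.1 hm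
    obtain ⟨x, hx⟩ := hN (n + q * N) (by nlinarith)
    refine ⟨x, ?_⟩
    have h1 : ∑ i, b (x i) ≡ ∑ i, x i ^ k [MOD q] := by
      refine Nat.ModEq.sum fun i _ => ?_
      obtain ⟨j, -, h2⟩ := hb (x i)
      rw [h2]
      unfold Nat.ModEq
      rw [Nat.add_mul_mod_self_left]
    rw [hx] at h1
    refine h1.symm.trans ?_
    unfold Nat.ModEq
    rw [Nat.add_mul_mod_self_left]

/-- **The exact value.** -/
theorem result (k : ℕ) (hk : 2 ≤ k) (q : ℕ) (hq : 1 ≤ q) (F : ℕ) (hF : F ≤ k) (η δ : ℝ)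
    (hη : (1 - 1 / (k : ℝ)) ^ (k + 1 - F) < η) (hη2 : η < (F : ℝ) / k) (hδ0 : 0 < δ)
    (hδ1 : δ ≤ 1) :
    -- almost surely the analogue of `G(k)` is the maximum of `k + 1` and `Γ k q`
    (∀ (Ω : Type) [MeasurableSpace Ω] (μ : Measure Ω) [IsProbabilityMeasure μ] (a : ℕ → Ω → ℕ),
      Moved k q η δ μ a → ∀ᵐ ω ∂μ, Exact k q (fun x => a x ω)) ∧
    -- such random sequences exist, with each power unmoved with probability at least `1 - δ`
    (∃ (Ω : Type) (_ : MeasurableSpace Ω) (μ : Measure Ω) (_ : IsProbabilityMeasure μ)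
      (a : ℕ → Ω → ℕ), Moved k q η δ μ a ∧ ∀ x, 1 - δ ≤ μ.real {ω | a x ω = x ^ k}) ∧
    -- the deterministic corollary
    (∃ b : ℕ → ℕ, (∀ x : ℕ, ∃ j : ℕ, (j : ℝ) ≤ ((x : ℝ) ^ k) ^ η ∧ b x = x ^ k + q * j) ∧
      (∀ᶠ N : ℕ in atTop,
        (1 - δ) * N ≤ (((Finset.range N).filter fun x => b x = x ^ k).card : ℝ)) ∧
      Exact k q b) := by
  have hk1 : 1 ≤ k := by omega
  have hk0 : (0 : ℝ) < k := by exact_mod_cast (show 0 < k by omega)
  have hk1' : 1 / (k : ℝ) ≤ 1 := by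
    rw [div_le_one hk0]
    exact_mod_cast hk1
  have hη0 : 0 < η := lt_of_le_of_lt (pow_nonneg (by linarith) _) hη
  have hη1 : η < 1 := by
    refine hη2.trans_le ?_
    rw [div_le_one hk0]
    exact_mod_cast hF
  have key : ∀ (δ' : ℝ) (_ : 0 < δ') (_ : δ' ≤ 1) (Ω : Type) [MeasurableSpace Ω] (μ : Measure Ω)
      [IsProbabilityMeasure μ] (a : ℕ → Ω → ℕ), Moved k q η δ' μ a →
        ∀ᵐ ω ∂μ, Exact k q (fun x => a x ω) := by
    intro δ' h0 h1 Ω _ μ _ a ha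
    have h2 : ∀ᵐ ω ∂μ, ∀ t : ℕ, k + 1 ≤ t → ∀ᶠ n : ℕ in atTop,
        (∃ ρ : Fin t → ℕ, ∑ i, ρ i ^ k ≡ n [MOD q]) →
          ∃ x : Fin t → ℕ, (∀ i, 0 < x i) ∧ ∑ i, a (x i) ω = n := by
      rw [ae_all_iff]
      intro t
      by_cases ht : k + 1 ≤ t
      · obtain ⟨J, hFk, hJ, rfl⟩ := R500.WB.exists_FJ hk hF hη hη2 ht
        filter_upwards [R500.WB.coreFJ hq hk1 hη0 hη1 hFk hJ h0 h1 ha.measurable ha.indep ha.range
          ha.spread] with ω hω _
        exact hω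
      · exact ae_of_all _ fun ω h => absurd h ht
    filter_upwards [h2] with ω hω
    exact exact_of hk hq hη0 (fun x => ha.range x ω) hω
  refine ⟨key δ hδ0 hδ1, ?_, ?_⟩
  · obtain ⟨Ω, mΩ, μ, hμ, a, h1, h2, h3, h4, h5, -⟩ :=
      R500.WB.exists_movedQ q k (η := η) hq hδ0 hδ1
    exact ⟨Ω, mΩ, μ, hμ, a, ⟨h1, h2, h3, h4⟩, h5⟩
  · obtain ⟨Ω, mΩ, μ, hμ, a, h1, h2, h3, h4, -, h6⟩ :=
      R500.WB.exists_movedQ q k (η := η) (δ := δ / 2) hq (by linarith) (by linarith)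
    have h7 := key (δ / 2) (by linarith) (by linarith) Ω μ a ⟨h1, h2, h3, h4⟩
    obtain ⟨ω, h8, h9⟩ := (h6.and h7).exists
    refine ⟨fun x => a x ω, fun x => h3 x ω, ?_, h9⟩
    filter_upwards [h8 (1 - δ) (by linarith)] with n hn
    convert hn

end Pool.Agent.Results.MP_45c923_nt.ExactValue
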