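import Mathlib
import Pool.Agent.R500.WB.Main
import Pool.Agent.R500.WB.Local
import Pool.Agent.R500.WA.Lower

set_option autoImplicit false

/-!
# The order of magnitude for randomly moved `k`-th powers

Whatever the exponent `0 < η < 1` and the modulus `q` are, for `k`-th powers moved at random by at
most the `η`-th power of their size, times `q`, the analogue of `G(k)` almost surely has the order
of magnitude `k`; beyond `(η + log (1 / η)) k + 1` terms the conditions modulo `q` are the only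
obstructions.
-/

namespace Pool.Agent.Results.MP_45c923_nt.MovedPowers

open Finset MeasureTheory ProbabilityTheory Filter

/-- `a` is a sequence of `k`-th powers moved at random by multiples of `q`: the `a x` are
independent random natural numbers, `a x = x ^ k + q j` with an integer `0 ≤ j ≤ (x ^ k) ^ η`, and
each such `j` is taken with at least the probability `δ / ((x ^ k) ^ η + 1)`. With the remaining
probability (up to `1 - δ`) the power need not be moved at all. -/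
structure Moved (k q : ℕ) (η δ : ℝ) {Ω : Type} [MeasurableSpace Ω] (μ : Measure Ω)
    (a : ℕ → Ω → ℕ) : Prop where
  measurable : ∀ x, Measurable (a x)
  indep : iIndepFun a μ
  range : ∀ (x : ℕ) (ω : Ω), ∃ j : ℕ, (j : ℝ) ≤ ((x : ℝ) ^ k) ^ η ∧ a x ω = x ^ k + q * j
  spread : ∀ x j : ℕ, (j : ℝ) ≤ ((x : ℝ) ^ k) ^ η →
    δ / (((x : ℝ) ^ k) ^ η + 1) ≤ μ.real {ω | a x ω = x ^ k + q * j}

/-- `m` is the least number of terms which suffices for all large integers: the analogue of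
`G(k)` with `b x` in place of `x ^ k`. -/
def IsG (b : ℕ → ℕ) (m : ℕ) : Prop :=
  IsLeast {m : ℕ | ∀ᶠ n : ℕ in atTop, ∃ x : Fin m → ℕ, ∑ i, b (x i) = n} m

/-- The order of magnitude: beyond `(η + log (1 / η)) k + 1` terms the conditions modulo `q` are
the only obstructions, and the analogue of `G(k)` lies between `k + 1` and the maximum of `4 k` and
`(η + log (1 / η)) k + 2`. -/
def Order (k q : ℕ) (η : ℝ) (b : ℕ → ℕ) : Prop :=
  (∀ t : ℕ, (η + Real.log (1 / η)) * k + 1 < t → ∀ᶠ n : ℕ in atTop,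
    (∃ ρ : Fin t → ℕ, ∑ i, ρ i ^ k ≡ n [MOD q]) →
      ∃ x : Fin t → ℕ, (∀ i, 0 < x i) ∧ ∑ i, b (x i) = n) ∧
  ∃ m : ℕ, IsG b m ∧ k + 1 ≤ m ∧ (m : ℝ) ≤ max (4 * (k : ℝ)) ((η + Real.log (1 / η)) * k + 2)

/-- The deterministic lower bound. -/
lemma le_of_mem {k : ℕ} (hk : 2 ≤ k) {b : ℕ → ℕ} (hb : ∀ x, x ^ k ≤ b x) (hb0 : b 0 = 0) {m : ℕ}
    (hm : ∀ᶠ n : ℕ in atTop, ∃ x : Fin m → ℕ, ∑ i, b (x i) = n) : k + 1 ≤ m := by
  by_contra hcon
  obtain ⟨N₀, hN₀⟩ := eventually_atTop.1 hm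
  obtain ⟨n, hn, hn'⟩ := R500.WA.lower hk b hb N₀
  apply hn'
  obtain ⟨x, hx⟩ := hN₀ n hn
  -- keep the positive terms
  refine ⟨((univ : Finset (Fin m)).filter fun i => 0 < x i).card, ?_,
    fun i => x (((univ : Finset (Fin m)).filter fun i => 0 < x i).orderEmbOfFin rfl i), ?_, ?_⟩
  · have h1 := Finset.card_filter_le (univ : Finset (Fin m)) (fun i => 0 < x i)
    rw [Finset.card_univ, Fintype.card_fin] at h1
    omega
  · intro i
    exact (Finset.mem_filter.1 (Finset.orderEmbOfFin_mem _ rfl i)).2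
  · rw [← hx]
    have h1 : ∑ i, b (x i) = ∑ i ∈ (univ : Finset (Fin m)).filter (fun i => 0 < x i), b (x i) := by
      rw [Finset.sum_filter]
      refine Finset.sum_congr rfl fun i _ => ?_
      split_ifs with h
      · rfl
      · have : x i = 0 := by omega
        rw [this, hb0]
    rw [h1]
    have h2 := Finset.map_orderEmbOfFin_univ
      ((univ : Finset (Fin m)).filter fun i => 0 < x i) rfl
    conv_rhs => rw [← h2]
    rw [Finset.sum_map]
    rfl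

lemma order_of {k q : ℕ} {η : ℝ} (hk : 2 ≤ k) (hq : 1 ≤ q) (hη0 : 0 < η) (hη1 : η < 1)
    {b : ℕ → ℕ}
    (hb : ∀ x : ℕ, ∃ j : ℕ, (j : ℝ) ≤ ((x : ℝ) ^ k) ^ η ∧ b x = x ^ k + q * j)
    (h : ∀ t : ℕ, (η + Real.log (1 / η)) * k + 1 < t → ∀ᶠ n : ℕ in atTop,
      (∃ ρ : Fin t → ℕ, ∑ i, ρ i ^ k ≡ n [MOD q]) →
        ∃ x : Fin t → ℕ, (∀ i, 0 < x i) ∧ ∑ i, b (x i) = n) : Order k q η b := by
  have hk1 : 1 ≤ k := by omega
  have hlog0 : 0 < Real.log (1 / η) := Real.log_pos (by rw [lt_div_iff₀ hη0]; linarith)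
  obtain ⟨c, hc⟩ : ∃ c : ℝ, c = (η + Real.log (1 / η)) * k := ⟨_, rfl⟩
  have hc0 : 0 ≤ c := by rw [hc]; positivity
  obtain ⟨t, ht⟩ : ∃ t : ℕ, t = max (4 * k) (⌊c⌋₊ + 2) := ⟨_, rfl⟩
  have ht1 : (η + Real.log (1 / η)) * k + 1 < t := by
    rw [← hc]
    have h1 := Nat.lt_floor_add_one c
    have h2 : ((⌊c⌋₊ + 2 : ℕ) : ℝ) ≤ t := by
      rw [ht]; exact_mod_cast le_max_right _ _
    push_cast at h2
    linarith
  have ht2 : (t : ℝ) ≤ max (4 * (k : ℝ)) ((η + Real.log (1 / η)) * k + 2) := by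
    rw [← hc, ht]
    have h1 := Nat.floor_le hc0
    push_cast
    exact max_le_max le_rfl (by linarith)
  have hb0 : b 0 = 0 := by
    obtain ⟨j, h1, h2⟩ := hb 0
    have h3 : ((0 : ℕ) : ℝ) ^ k = 0 := by
      rw [Nat.cast_zero, zero_pow (by omega)]
    rw [h3, Real.zero_rpow hη0.ne'] at h1
    have h4 : j = 0 := by exact_mod_cast le_antisymm h1 (Nat.cast_nonneg _)
    rw [h2, h4, zero_pow (by omega), mul_zero, add_zero]
  have hbk : ∀ x, x ^ k ≤ b x := by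
    intro x
    obtain ⟨j, -, h2⟩ := hb x
    rw [h2]
    exact Nat.le_add_right _ _
  have hloc : R500.WB.Loc k t q :=
    (R500.WB.Loc.four hk1 hq).mono hk1 (by rw [ht]; exact le_max_left _ _)
  have hne : t ∈ {m : ℕ | ∀ᶠ n : ℕ in atTop, ∃ x : Fin m → ℕ, ∑ i, b (x i) = n} := by
    rw [Set.mem_ofPred_eq]
    filter_upwards [h t ht1] with n hn
    obtain ⟨x, -, hx⟩ := hn (hloc n)
    exact ⟨x, hx⟩
  refine ⟨h, sInf _, ⟨Nat.sInf_mem ⟨t, hne⟩, fun m hm => Nat.sInf_le hm⟩, ?_, ?_⟩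
  · exact le_of_mem hk hbk hb0 (Nat.sInf_mem ⟨t, hne⟩)
  · refine le_trans ?_ ht2
    exact_mod_cast Nat.sInf_le hne

/-- **The order of magnitude.** -/
theorem result (η δ : ℝ) (hη0 : 0 < η) (hη1 : η < 1) (hδ0 : 0 < δ) (hδ1 : δ ≤ 1) (k : ℕ)
    (hk : 2 ≤ k) (q : ℕ) (hq : 1 ≤ q) :
    -- almost surely the analogue of `G(k)` has the order of magnitude `k`
    (∀ (Ω : Type) [MeasurableSpace Ω] (μ : Measure Ω) [IsProbabilityMeasure μ] (a : ℕ → Ω → ℕ),
      Moved k q η δ μ a → ∀ᵐ ω ∂μ, Order k q η (fun x => a x ω)) ∧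
    -- such random sequences exist, with each power unmoved with probability at least `1 - δ`
    (∃ (Ω : Type) (_ : MeasurableSpace Ω) (μ : Measure Ω) (_ : IsProbabilityMeasure μ)
      (a : ℕ → Ω → ℕ), Moved k q η δ μ a ∧ ∀ x, 1 - δ ≤ μ.real {ω | a x ω = x ^ k}) ∧
    -- the deterministic corollary
    (∃ b : ℕ → ℕ, (∀ x : ℕ, ∃ j : ℕ, (j : ℝ) ≤ ((x : ℝ) ^ k) ^ η ∧ b x = x ^ k + q * j) ∧
      (∀ᶠ N : ℕ in atTop,
        (1 - δ) * N ≤ (((Finset.range N).filter fun x => b x = x ^ k).card : ℝ)) ∧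
      Order k q η b) := by
  have hk1 : 1 ≤ k := by omega
  have key : ∀ (δ' : ℝ) (_ : 0 < δ') (_ : δ' ≤ 1) (Ω : Type) [MeasurableSpace Ω] (μ : Measure Ω)
      [IsProbabilityMeasure μ] (a : ℕ → Ω → ℕ), Moved k q η δ' μ a →
        ∀ᵐ ω ∂μ, Order k q η (fun x => a x ω) := by
    intro δ' h0 h1 Ω _ μ _ a ha
    have h2 : ∀ᵐ ω ∂μ, ∀ t : ℕ, (η + Real.log (1 / η)) * k + 1 < t → ∀ᶠ n : ℕ in atTop,
        (∃ ρ : Fin t → ℕ, ∑ i, ρ i ^ k ≡ n [MOD q]) →
          ∃ x : Fin t → ℕ, (∀ i, 0 < x i) ∧ ∑ i, a (x i) ω = n := by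
      rw [ae_all_iff]
      intro t
      by_cases ht : (η + Real.log (1 / η)) * k + 1 < t
      · filter_upwards [R500.WB.coreQ hq hk1 hη0 hη1 ht h0 h1 ha.measurable ha.indep ha.range
          ha.spread] with ω hω _
        exact hω
      · exact ae_of_all _ fun ω h => absurd h ht
    filter_upwards [h2] with ω hω
    exact order_of hk hq hη0 hη1 (fun x => ha.range x ω) hω
  refine ⟨key δ hδ0 hδ1, ?_, ?_⟩
  · obtain ⟨Ω, mΩ, μ, hμ, a, h1, h2, h3, h4, h5, -⟩ :=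
      R500.WB.exists_movedQ q k (η := η) hq hδ0 hδ1
    exact ⟨Ω, mΩ, μ, hμ, a, ⟨h1, h2, h3, h4⟩, h5⟩
  · obtain ⟨Ω, mΩ, μ, hμ, a, h1, h2, h3, h4, -, h6⟩ :=
      R500.WB.exists_movedQ q k (η := η) (δ := δ / 2) hq (by linarith) (by linarith)
    have h7 := key (δ / 2) (by linarith) (by linarith) Ω μ a ⟨h1, h2, h3, h4⟩
    obtain ⟨ω, h8, h9⟩ := (h6.and h7).exists
    refine ⟨fun x => a x ω, fun x => h3 x ω, ?_, h9⟩
    filter_upwards [h8 (1 - δ) (by linarith)] with n hn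
    convert hn

end Pool.Agent.Results.MP_45c923_nt.MovedPowers
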