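import Mathlib
import Pool.Agent.R77.WC.Fin

set_option autoImplicit false

/-!
# The order of magnitude with one sparse random summand

All the terms but one are genuine `k`-th powers; the remaining one is an element of a sparse random
set, whose elements are divisible by slowly growing moduli, so that it does not help with any
congruence condition. However sparse the set is (about `N ^ η` elements up to `N`, `0 < η ≤ 1`),
almost surely, for all `k ≥ 2` at once, the least number `G` of powers has the order of magnitude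
`k`: it is at least the number `g` of powers needed for all congruences and at least `(1 - η) k`, and
at most the maximum of `g ≤ 4 k` and `⌊k log (1 / η)⌋ + 1`.
-/

namespace Pool.Agent.Results.MP_45c923_nt.SparseSummand

open Finset MeasureTheory ProbabilityTheory Filter

/-- The moduli `Q 0 ∣ Q 1 ∣ Q 2 ∣ …` grow more slowly than any power, and each `d ≥ 1` divides all
but finitely many of them. -/
structure Moduli (Q : ℕ → ℕ) : Prop where
  pos : ∀ m, 0 < Q m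
  dvd : ∀ m m', m ≤ m' → Q m ∣ Q m'
  small : ∀ ε : ℝ, 0 < ε → ∀ᶠ m : ℕ in atTop, (Q m : ℝ) ≤ (m : ℝ) ^ ε
  all : ∀ d : ℕ, 0 < d → ∀ᶠ m : ℕ in atTop, d ∣ Q m

/-- `R` is the random set which contains, independently for different `m`, each integer `m ≥ 1`
divisible by `Q m` with the probability `m ^ (η - 1)`, and which contains no other integers. -/
structure Sparse (Q : ℕ → ℕ) (η : ℝ) {Ω : Type} [MeasurableSpace Ω] (μ : Measure Ω)
    (R : Ω → Set ℕ) : Prop where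
  measurable : ∀ m, MeasurableSet {ω | m ∈ R ω}
  indep : iIndepSet (fun m : ℕ => {ω | m ∈ R ω}) μ
  mem : ∀ ω, ∀ m ∈ R ω, 0 < m ∧ Q m ∣ m
  prob : ∀ m : ℕ, 0 < m → Q m ∣ m → μ.real {ω | m ∈ R ω} = (m : ℝ) ^ (η - 1)

/-- Each `d ≥ 1` divides all but finitely many elements of `R`, and for each `ε > 0` and all large
`N` there are at most `N ^ (η + ε)` elements of `R` up to `N`. -/
def Thin (η : ℝ) (R : Set ℕ) : Prop :=
  (∀ d : ℕ, 0 < d → {r ∈ R | ¬ d ∣ r}.Finite) ∧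
  ∀ ε : ℝ, 0 < ε → ∀ᶠ N : ℕ in atTop, ((R ∩ Set.Icc 1 N).ncard : ℝ) ≤ (N : ℝ) ^ (η + ε)

/-- Each large `n` is a sum of `s` positive `k`-th powers and of an element `r ≥ n / 2` of `R`. -/
def Suff (k : ℕ) (R : Set ℕ) (s : ℕ) : Prop :=
  ∀ᶠ n : ℕ in atTop, ∃ r ∈ R, n ≤ 2 * r ∧
    ∃ x : Fin s → ℕ, (∀ i, 0 < x i) ∧ ∑ i, x i ^ k + r = n

/-- Each `n` is modulo `q` a sum of `s` `k`-th powers. -/
def LocalSums (k s q : ℕ) : Prop := ∀ n : ℕ, ∃ x : Fin s → ℕ, ∑ i, x i ^ k ≡ n [MOD q]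

/-- For each `k ≥ 2` the following holds. Let `g` be the least number of `k`-th powers needed for
all `n` modulo all `q`, and let `G` be the least number of positive `k`-th powers which, with one
element `r ≥ n / 2` of `R`, suffice for each large `n` (both exist). Then `g ≤ 4 k`, and `G` lies
between `max g ((1 - η) k)` and `max g (⌊k log (1 / η)⌋ + 1)`. -/
def OrderK (η : ℝ) (R : Set ℕ) : Prop := ∀ k : ℕ, 2 ≤ k →
  ∃ g G : ℕ, IsLeast {s | ∀ q, 1 ≤ q → LocalSums k s q} g ∧ g ≤ 4 * k ∧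
    IsLeast {s | Suff k R s} G ∧ g ≤ G ∧ (1 - η) * k ≤ G ∧
    G ≤ max g (⌊(k : ℝ) * Real.log (1 / η)⌋₊ + 1)

lemma of_good {η : ℝ} (hη : 0 < η) {R : Set ℕ} (h : R77.WC.Good η R) :
    Thin η R ∧ OrderK η R := by
  exact ⟨⟨h.null, h.count⟩, fun k hk => h.order hη hk⟩

/-- **The order of magnitude with one sparse random summand.** -/
theorem result (η : ℝ) (hη : 0 < η) (hη1 : η ≤ 1) :
    -- almost all the random sets
    (∀ Q : ℕ → ℕ, Moduli Q → ∀ (Ω : Type) [MeasurableSpace Ω] (μ : Measure Ω)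
      [IsProbabilityMeasure μ] (R : Ω → Set ℕ), Sparse Q η μ R →
      ∀ᵐ ω ∂μ, Thin η (R ω) ∧ OrderK η (R ω)) ∧
    -- the random sets exist
    (∀ Q : ℕ → ℕ, ∃ (Ω : Type) (_ : MeasurableSpace Ω) (μ : Measure Ω) (_ : IsProbabilityMeasure μ)
      (R : Ω → Set ℕ), Sparse Q η μ R) ∧
    (∃ Q : ℕ → ℕ, Moduli Q) ∧
    -- the deterministic corollary
    (∃ R : Set ℕ, Thin η R ∧ OrderK η R) := by
  have hη0 : 0 < η := hη
  have h1 : ∀ Q : ℕ → ℕ, Moduli Q → ∀ (Ω : Type) [MeasurableSpace Ω] (μ : Measure Ω)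
      [IsProbabilityMeasure μ] (R : Ω → Set ℕ), Sparse Q η μ R →
      ∀ᵐ ω ∂μ, Thin η (R ω) ∧ OrderK η (R ω) := by
    intro Q hQ Ω _ μ _ R hR
    filter_upwards [R77.WC.good (Q := Q) ⟨hQ.pos, hQ.dvd, hQ.small⟩ hQ.all hη0.le hη1
      hR.measurable hR.indep hR.mem hR.prob] with ω hω
    exact of_good hη hω
  have h2 : ∀ Q : ℕ → ℕ, ∃ (Ω : Type) (_ : MeasurableSpace Ω) (μ : Measure Ω)
      (_ : IsProbabilityMeasure μ) (R : Ω → Set ℕ), Sparse Q η μ R := by
    intro Q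
    obtain ⟨Ω, m, μ, hμ, R, h3, h4, h5, h6⟩ := R77.WC.exists_sparse Q hη1
    exact ⟨Ω, m, μ, hμ, R, h3, h4, h5, h6⟩
  have h3 : Moduli R77.WC.Q0 :=
    ⟨R77.WC.Q0_moduli.pos, R77.WC.Q0_moduli.dvd, R77.WC.Q0_moduli.small, R77.WC.Q0_all⟩
  refine ⟨h1, h2, ⟨_, h3⟩, ?_⟩
  obtain ⟨Ω, m, μ, hμ, R, hR⟩ := h2 R77.WC.Q0
  obtain ⟨ω, hω⟩ := (h1 R77.WC.Q0 h3 Ω μ R hR).exists
  exact ⟨R ω, hω⟩

end Pool.Agent.Results.MP_45c923_nt.SparseSummand
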